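import Pool.Agent.W627.LT.Stm

/-!
# Second moment of the character sum over small primes along an arithmetic progression
-/

set_option autoImplicit false

namespace Pool.Agent.W576.LT

open Finset Pool.Agent.W627.LT

theorem sum_mul_range (f : ℕ → ℤ) (m n : ℕ) :
    ∑ x ∈ range (m * n), f x = ∑ i ∈ range n, ∑ r ∈ range m, f (m * i + r) := by
  induction n with
  | zero => simp
  | succ n ih => rw [Nat.mul_succ, Finset.sum_range_add, ih, Finset.sum_range_succ]

theorem one (p : ℕ) [Fact p.Prime] (hp : p ≠ 2) (b c : ℤ) (hc : ¬ (p : ℤ) ∣ c) :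
    ∑ i ∈ range p, jacobiSym (b + c * (i : ℤ)) p = 0 := by
  have h1 : ∀ i : ℕ, jacobiSym (b + c * (i : ℤ)) p =
      quadraticChar (ZMod p) ((b : ZMod p) + (c : ZMod p) * (i : ZMod p)) := by
    intro i
    rw [← jacobiSym.legendreSym.to_jacobiSym, legendreSym]
    push_cast
    rfl
  rw [Finset.sum_congr rfl (fun i _ => h1 i)]
  have h2 : ∑ i ∈ range p, quadraticChar (ZMod p) ((b : ZMod p) + (c : ZMod p) * (i : ZMod p)) =
      ∑ x : ZMod p, quadraticChar (ZMod p) ((b : ZMod p) + (c : ZMod p) * x) := by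
    apply Finset.sum_nbij' (fun i : ℕ => (i : ZMod p)) (fun x : ZMod p => x.val)
    · intro i _
      exact Finset.mem_univ _
    · intro x _
      exact Finset.mem_range.2 (ZMod.val_lt x)
    · intro i hi
      exact ZMod.val_cast_of_lt (Finset.mem_range.1 hi)
    · intro x _
      exact ZMod.natCast_zmod_val x
    · intro i _
      rfl
  rw [h2]
  have hc' : (c : ZMod p) ≠ 0 := by
    rw [Ne, ZMod.intCast_zmod_eq_zero_iff_dvd]
    exact hc
  have h3 : ∑ x : ZMod p, quadraticChar (ZMod p) ((b : ZMod p) + (c : ZMod p) * x) =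
      ∑ y : ZMod p, quadraticChar (ZMod p) y := by
    apply Fintype.sum_bijective (fun x : ZMod p => (b : ZMod p) + (c : ZMod p) * x)
    · constructor
      · intro x y hxy
        exact mul_left_cancel₀ hc' (add_left_cancel hxy)
      · intro y
        refine ⟨(c : ZMod p)⁻¹ * (y - b), ?_⟩
        show (b : ZMod p) + (c : ZMod p) * ((c : ZMod p)⁻¹ * (y - b)) = y
        rw [← mul_assoc, mul_inv_cancel₀ hc', one_mul]
        ring
    · intro x
      rfl
  rw [h3]
  exact quadraticChar_sum_zero (by rw [ZMod.ringChar_zmod_n]; exact hp)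

theorem jmod (x y : ℤ) (n : ℕ) (h : (n : ℤ) ∣ x - y) : jacobiSym x n = jacobiSym y n := by
  apply jacobiSym.mod_left'
  exact Int.emod_eq_emod_iff_emod_sub_eq_zero.2 (Int.emod_eq_zero_of_dvd h)

theorem two (p p' : ℕ) (hp : p.Prime) (hp2 : p ≠ 2) (hp' : p'.Prime) (hne : p ≠ p')
    (a q : ℕ) (hq : ¬ p ∣ q) :
    ∑ j ∈ range (p' * p), (jacobiSym ((a + q * j : ℕ) : ℤ) p *
      jacobiSym ((a + q * j : ℕ) : ℤ) p') = 0 := by
  have : Fact p.Prime := ⟨hp⟩
  rw [sum_mul_range, Finset.sum_comm]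
  apply Finset.sum_eq_zero
  intro r _
  have h1 : ∀ i ∈ range p, jacobiSym ((a + q * (p' * i + r) : ℕ) : ℤ) p *
      jacobiSym ((a + q * (p' * i + r) : ℕ) : ℤ) p' =
      jacobiSym (((a + q * r : ℕ) : ℤ) + ((q * p' : ℕ) : ℤ) * (i : ℤ)) p *
        jacobiSym ((a + q * r : ℕ) : ℤ) p' := by
    intro i _
    congr 1
    · congr 1
      push_cast
      ring
    · apply jmod
      refine ⟨(q : ℤ) * i, ?_⟩
      push_cast
      ring
  rw [Finset.sum_congr rfl h1, ← Finset.sum_mul, one p hp2, zero_mul]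
  intro h
  have h2 : p ∣ q * p' := by exact_mod_cast h
  rcases (Nat.Prime.dvd_mul hp).1 h2 with h3 | h3
  · exact hq h3
  · exact hne ((Nat.prime_dvd_prime_iff_eq hp hp').1 h3)

theorem three (g : ℕ → ℤ) (m : ℕ) (hm : 0 < m) (hper : ∀ j, g (m + j) = g j)
    (h0 : ∑ j ∈ range m, g j = 0) (hb : ∀ j, |g j| ≤ 1) (H : ℕ) :
    |∑ j ∈ range H, g j| ≤ m := by
  induction H using Nat.strong_induction_on with
  | _ H ih =>
    by_cases hH : H ≤ m
    · calc |∑ j ∈ range H, g j| ≤ ∑ j ∈ range H, |g j| := Finset.abs_sum_le_sum_abs _ _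
        _ ≤ ∑ _j ∈ range H, (1 : ℤ) := Finset.sum_le_sum (fun j _ => hb j)
        _ = (H : ℤ) := by simp
        _ ≤ m := by exact_mod_cast hH
    · obtain ⟨K, rfl⟩ : ∃ K, H = m + K := ⟨H - m, by omega⟩
      rw [Finset.sum_range_add, h0, zero_add, Finset.sum_congr rfl (fun j _ => hper j)]
      exact ih K (by omega)

theorem jabs (x : ℤ) (n : ℕ) : |jacobiSym x n| ≤ 1 := by
  rcases jacobiSym.trichotomy x n with h | h | h <;> rw [h] <;> norm_num

theorem pair (p p' : ℕ) (hp : p.Prime) (hp2 : p ≠ 2) (hp' : p'.Prime) (hne : p ≠ p')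
    (a q : ℕ) (hq : ¬ p ∣ q) (H y : ℕ) (hy : p ≤ y) (hy' : p' ≤ y) :
    ∑ j ∈ range H, (jacobiSym ((a + q * j : ℕ) : ℤ) p *
      jacobiSym ((a + q * j : ℕ) : ℤ) p') ≤ (y : ℤ) ^ 2 := by
  have h1 := three (fun j => jacobiSym ((a + q * j : ℕ) : ℤ) p *
      jacobiSym ((a + q * j : ℕ) : ℤ) p') (p' * p) (Nat.mul_pos hp'.pos hp.pos) (by
      intro j
      show jacobiSym ((a + q * (p' * p + j) : ℕ) : ℤ) p *
        jacobiSym ((a + q * (p' * p + j) : ℕ) : ℤ) p' = jacobiSym ((a + q * j : ℕ) : ℤ) p *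
        jacobiSym ((a + q * j : ℕ) : ℤ) p'
      congr 1
      · apply jmod
        refine ⟨(q : ℤ) * p', ?_⟩
        push_cast
        ring
      · apply jmod
        refine ⟨(q : ℤ) * p, ?_⟩
        push_cast
        ring) (two p p' hp hp2 hp' hne a q hq) (by
      intro j
      show |jacobiSym ((a + q * j : ℕ) : ℤ) p * jacobiSym ((a + q * j : ℕ) : ℤ) p'| ≤ 1
      rw [abs_mul]
      exact mul_le_one₀ (jabs _ _) (abs_nonneg _) (jabs _ _)) H
  refine le_trans (le_abs_self _) (le_trans h1 ?_)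
  have h2 : p' * p ≤ y ^ 2 := by
    rw [pow_two]
    exact Nat.mul_le_mul hy' hy
  exact_mod_cast h2

theorem lte : S_E := by
  intro a q H y P hP hPH
  obtain ⟨s, hs⟩ : ∃ s : ℕ → ℤ, ∀ j, s j = ∑ p ∈ P, jacobiSym ((a + q * j : ℕ) : ℤ) p :=
    ⟨_, fun _ => rfl⟩
  have hS : ∑ j ∈ range H, s j ^ 2 ≤ (P.card : ℤ) * H + (P.card : ℤ) * (P.card * y ^ 2) := by
    have h1 : ∑ j ∈ range H, s j ^ 2 = ∑ p ∈ P, ∑ p' ∈ P, ∑ j ∈ range H,
        (jacobiSym ((a + q * j : ℕ) : ℤ) p * jacobiSym ((a + q * j : ℕ) : ℤ) p') := by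
      have h0 : ∀ j ∈ range H, s j ^ 2 = ∑ p ∈ P, ∑ p' ∈ P,
          (jacobiSym ((a + q * j : ℕ) : ℤ) p * jacobiSym ((a + q * j : ℕ) : ℤ) p') := by
        intro j _
        rw [hs, pow_two, Finset.sum_mul_sum]
      rw [Finset.sum_congr rfl h0, Finset.sum_comm]
      apply Finset.sum_congr rfl
      intro p _
      rw [Finset.sum_comm]
    rw [h1]
    calc _ ≤ ∑ p ∈ P, ∑ p' ∈ P, ((if p = p' then (H : ℤ) else 0) + (y : ℤ) ^ 2) := by
          apply Finset.sum_le_sum
          intro p hp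
          apply Finset.sum_le_sum
          intro p' hp'
          obtain ⟨h1, h2, h3, h4⟩ := hP p hp
          obtain ⟨h1', h2', h3', h4'⟩ := hP p' hp'
          by_cases hpp : p = p'
          · rw [if_pos hpp]
            have h5 : ∑ j ∈ range H, (jacobiSym ((a + q * j : ℕ) : ℤ) p *
                jacobiSym ((a + q * j : ℕ) : ℤ) p') ≤ ∑ _j ∈ range H, (1 : ℤ) := by
              apply Finset.sum_le_sum
              intro j _
              refine le_trans (le_abs_self _) ?_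
              rw [abs_mul]
              exact mul_le_one₀ (jabs _ _) (abs_nonneg _) (jabs _ _)
            rw [Finset.sum_const, Finset.card_range, nsmul_eq_mul, mul_one] at h5
            have h6 : (0 : ℤ) ≤ (y : ℤ) ^ 2 := by positivity
            linarith
          · rw [if_neg hpp, zero_add]
            exact pair p p' h1 h2 h1' hpp a q h4 H y h3 h3'
      _ = _ := by
          have h5 : ∀ p ∈ P, ∑ p' ∈ P, ((if p = p' then (H : ℤ) else 0) + (y : ℤ) ^ 2) =
              (H : ℤ) + P.card * (y : ℤ) ^ 2 := by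
            intro p hp
            rw [Finset.sum_add_distrib, Finset.sum_ite_eq, if_pos hp, Finset.sum_const,
              nsmul_eq_mul]
          rw [Finset.sum_congr rfl h5, Finset.sum_const, nsmul_eq_mul, mul_add]
  set F := (range H).filter (fun j => 2 * ∑ p ∈ P, jacobiSym ((a + q * j : ℕ) : ℤ) p ≤
    -(P.card : ℤ)) with hF
  have hF2 : (F.card : ℤ) * (P.card : ℤ) ^ 2 ≤ 4 * ∑ j ∈ range H, s j ^ 2 := by
    calc (F.card : ℤ) * (P.card : ℤ) ^ 2 = ∑ _j ∈ F, (P.card : ℤ) ^ 2 := by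
          rw [Finset.sum_const, nsmul_eq_mul]
      _ ≤ ∑ j ∈ F, 4 * s j ^ 2 := by
          apply Finset.sum_le_sum
          intro j hj
          rw [hF, Finset.mem_filter] at hj
          have h1 := hj.2
          rw [← hs] at h1
          have h2 : (0 : ℤ) ≤ (P.card : ℤ) := Nat.cast_nonneg _
          nlinarith [h1, h2]
      _ ≤ ∑ j ∈ range H, 4 * s j ^ 2 :=
          Finset.sum_le_sum_of_subset_of_nonneg (Finset.filter_subset _ _)
            (fun j _ _ => by positivity)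
      _ = 4 * ∑ j ∈ range H, s j ^ 2 := by rw [Finset.mul_sum]
  have hPH' : (P.card : ℤ) * (y : ℤ) ^ 2 ≤ H := by exact_mod_cast hPH
  rcases Nat.eq_zero_or_pos P.card with h0 | h0
  · rw [h0, Nat.mul_zero]
    exact Nat.zero_le _
  · have h0' : (0 : ℤ) < (P.card : ℤ) := by exact_mod_cast h0
    have h1 : (F.card : ℤ) * (P.card : ℤ) ≤ 8 * H := by
      apply le_of_mul_le_mul_right _ h0'
      have h2 : (P.card : ℤ) * (P.card * y ^ 2) ≤ (P.card : ℤ) * H :=
        mul_le_mul_of_nonneg_left hPH' h0'.le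
      nlinarith [hF2, hS, h2]
    exact_mod_cast h1

end Pool.Agent.W576.LT
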